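import Pool.Agent.Y367.HR.Base

/-!
# Inner homogeneous embeddings for representations over arbitrary rings

Every representation `R` over every ring `K` (commutative or not) embeds in a representation `L` over
`K` in which every isomorphism between finitely generated subrepresentations is induced by an element
`g` of the group of `L` (it sends `w` to `w g` and `h` to `g⁻¹ h g`); in particular `L` is
homogeneous.  Moreover every isomorphism between two arbitrary subrepresentations of `R` is induced by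
an element of the group of `L`.
-/

universe u

namespace Pool.Agent.Results.MP_f6eb76_al.InnerHomogeneous

open Pool.Agent.Y367.HR

variable {K : Type u} [Ring K]

theorem homogeneous_of_inner {L : Rep K} (hL : L.InnerHomogeneous) : L.Homogeneous := by
  intro S T hS hT α β h
  obtain ⟨g, h1, h2⟩ := hL S T hS hT α β h
  refine ⟨L.inner g, fun w hw => (h1 w hw).symm, fun x hx => ?_⟩
  rw [h2 x hx]
  change g⁻¹ * x * g⁻¹⁻¹ = _
  rw [inv_inv]

/-- Elements with the same annihilator are in one orbit. -/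
theorem orbit_of_inner {L : Rep K} (hL : L.InnerHomogeneous) (v w : L.V)
    (h : ∀ k : K, k • v = 0 ↔ k • w = 0) : ∃ g : L.G, L.act v g = w := by
  classical
  have h' : ∀ k l : K, k • v = l • v ↔ k • w = l • w := by
    intro k l
    rw [← sub_eq_zero, ← sub_smul, h, sub_smul, sub_eq_zero]
  have hst : ∀ x : L.V, ∀ y ∈ Submodule.span K {x}, ∀ g ∈ (⊥ : Subgroup L.G),
      L.act y g ∈ Submodule.span K {x} := by
    intro x y hy g hg
    rw [Subgroup.mem_bot] at hg
    rw [hg, L.act_one]
    exact hy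
  let S : Subrep L := ⟨Submodule.span K {v}, ⊥, hst v⟩
  let T : Subrep L := ⟨Submodule.span K {w}, ⊥, hst w⟩
  have hFG : ∀ x : L.V, (⟨Submodule.span K {x}, ⊥, hst x⟩ : Subrep L).FG := by
    intro x
    refine ⟨⟨∅, ?_⟩, {x}, ?_⟩
    · rw [Finset.coe_empty, Subgroup.closure_empty]
    · congr 1
      ext y
      constructor
      · rintro ⟨t, ht, g, hg, rfl⟩
        rw [Finset.mem_singleton] at ht
        have hg' : g = 1 := Subgroup.mem_bot.1 hg
        rw [ht, hg', L.act_one]
        exact rfl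
      · intro hy
        rw [Set.mem_singleton_iff] at hy
        exact ⟨x, Finset.mem_singleton_self x, 1, Subgroup.one_mem _, by rw [L.act_one, hy]⟩
  let α : L.V → L.V := fun x => if hx : ∃ k : K, k • v = x then hx.choose • w else 0
  have hα : ∀ k : K, α (k • v) = k • w := by
    intro k
    have hx : ∃ l : K, l • v = k • v := ⟨k, rfl⟩
    have h1 : α (k • v) = hx.choose • w := dif_pos hx
    rw [h1]
    exact (h' _ _).1 hx.choose_spec
  have hiso : IsIso S T α id := by
    refine ⟨⟨?_, ?_, ?_⟩, Set.bijOn_id _, ?_, ?_, fun g _ h _ => rfl, ?_⟩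
    · intro x hx
      obtain ⟨k, rfl⟩ := Submodule.mem_span_singleton.1 hx
      rw [hα]
      exact Submodule.mem_span_singleton.2 ⟨k, rfl⟩
    · intro x hx y hy hxy
      obtain ⟨k, rfl⟩ := Submodule.mem_span_singleton.1 hx
      obtain ⟨l, rfl⟩ := Submodule.mem_span_singleton.1 hy
      rw [hα, hα] at hxy
      exact (h' _ _).2 hxy
    · intro y hy
      obtain ⟨k, rfl⟩ := Submodule.mem_span_singleton.1 hy
      exact ⟨k • v, Submodule.mem_span_singleton.2 ⟨k, rfl⟩, hα k⟩
    · intro x hx y hy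
      obtain ⟨k, rfl⟩ := Submodule.mem_span_singleton.1 hx
      obtain ⟨l, rfl⟩ := Submodule.mem_span_singleton.1 hy
      rw [← add_smul, hα, hα, hα, add_smul]
    · intro c x hx
      obtain ⟨k, rfl⟩ := Submodule.mem_span_singleton.1 hx
      rw [← mul_smul, hα, hα, mul_smul]
    · intro x _ g hg
      have hg' : g = 1 := Subgroup.mem_bot.1 hg
      rw [hg', L.act_one]
      exact (L.act_one _).symm
  obtain ⟨g, h1, -⟩ := hL S T (hFG v) (hFG w) α id hiso
  refine ⟨g, ?_⟩
  have h2 := h1 v (Submodule.mem_span_singleton_self v)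
  have h3 := hα 1
  rw [one_smul, one_smul] at h3
  rw [← h2, h3]

/-- Elements of the same order are conjugate. -/
theorem conj_of_inner {L : Rep K} (hL : L.InnerHomogeneous) (x y : L.G)
    (h : orderOf x = orderOf y) : IsConj x y := by
  classical
  have h' : ∀ k l : ℤ, x ^ k = x ^ l ↔ y ^ k = y ^ l := by
    intro k l
    rw [zpow_eq_zpow_iff_modEq, zpow_eq_zpow_iff_modEq, h]
  have hst : ∀ z : L.G, ∀ v ∈ (⊥ : Submodule K L.V), ∀ g ∈ Subgroup.zpowers z,
      L.act v g ∈ (⊥ : Submodule K L.V) := by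
    intro z v hv g _
    rw [Submodule.mem_bot] at hv ⊢
    have h1 := L.act_smul 0 (0 : L.V) g
    rw [smul_zero, zero_smul] at h1
    rw [hv, h1]
  let S : Subrep L := ⟨⊥, Subgroup.zpowers x, hst x⟩
  let T : Subrep L := ⟨⊥, Subgroup.zpowers y, hst y⟩
  have hFG : ∀ z : L.G, (⟨⊥, Subgroup.zpowers z, hst z⟩ : Subrep L).FG := by
    intro z
    refine ⟨⟨{z}, ?_⟩, ∅, ?_⟩
    · rw [Finset.coe_singleton]
      exact (Subgroup.zpowers_eq_closure z).symm
    · simp
  let β : L.G → L.G := fun z => if hz : ∃ k : ℤ, x ^ k = z then y ^ hz.choose else 1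
  have hβ : ∀ k : ℤ, β (x ^ k) = y ^ k := by
    intro k
    have hz : ∃ l : ℤ, x ^ l = x ^ k := ⟨k, rfl⟩
    have h1 : β (x ^ k) = y ^ hz.choose := dif_pos hz
    rw [h1]
    exact (h' _ _).1 hz.choose_spec
  have hiso : IsIso S T id β := by
    refine ⟨Set.bijOn_id _, ⟨?_, ?_, ?_⟩, fun v _ w _ => rfl, fun k v _ => rfl, ?_, ?_⟩
    · intro z hz
      obtain ⟨k, rfl⟩ := Subgroup.mem_zpowers_iff.1 hz
      rw [hβ]
      exact Subgroup.mem_zpowers_iff.2 ⟨k, rfl⟩
    · intro z hz t ht hzt
      obtain ⟨k, rfl⟩ := Subgroup.mem_zpowers_iff.1 hz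
      obtain ⟨l, rfl⟩ := Subgroup.mem_zpowers_iff.1 ht
      rw [hβ, hβ] at hzt
      exact (h' _ _).2 hzt
    · intro z hz
      obtain ⟨k, rfl⟩ := Subgroup.mem_zpowers_iff.1 hz
      exact ⟨x ^ k, Subgroup.mem_zpowers_iff.2 ⟨k, rfl⟩, hβ k⟩
    · intro z hz t ht
      obtain ⟨k, rfl⟩ := Subgroup.mem_zpowers_iff.1 hz
      obtain ⟨l, rfl⟩ := Subgroup.mem_zpowers_iff.1 ht
      rw [← zpow_add, hβ, hβ, hβ, zpow_add]
    · intro v hv z _
      have hv' : v = 0 := (Submodule.mem_bot K).1 hv
      have h1 : ∀ g : L.G, L.act 0 g = 0 := by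
        intro g
        have h1 := L.act_smul 0 (0 : L.V) g
        rwa [smul_zero, zero_smul] at h1
      rw [hv', h1]
      exact (h1 _).symm
  obtain ⟨g, -, h1⟩ := hL S T (hFG x) (hFG y) id β hiso
  have h2 := h1 x (Subgroup.mem_zpowers x)
  have h3 := hβ 1
  rw [zpow_one, zpow_one] at h3
  rw [isConj_iff]
  refine ⟨g⁻¹, ?_⟩
  rw [inv_inv, ← h2, h3]

theorem inner_of_good {R S L : Rep K} (e : R.Embedding S) (he : e.Good) (ι1 : S.Embedding L)
    (ι0 : R.Embedding L) (hα : ∀ v, ι1.α (e.α v) = ι0.α v) (hβ : ∀ g, ι1.β (e.β g) = ι0.β g) :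
    ι0.Inner := by
  intro S' T α β hiso
  obtain ⟨φ, hφα, hφβ⟩ := hiso.exists_iso
  obtain ⟨g, hg1, hg2⟩ := he S'.W S'.H S'.stable (T.W.subtype ∘ₗ φ.α.toLinearMap)
    (T.H.subtype.comp φ.β.toMonoidHom)
    (fun v w h => φ.α.injective (Subtype.ext h)) (fun v w h => φ.β.injective (Subtype.ext h))
    (fun w h => φ.compat w h)
  refine ⟨ι1.β g, ?_, ?_⟩
  · intro w hw
    have h1 : e.α (φ.α ⟨w, hw⟩ : R.V) = S.act (e.α w) g := hg1 ⟨w, hw⟩
    have h2 := congrArg ι1.α h1
    rw [ι1.compat, hα, hα] at h2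
    have h3 : (φ.α ⟨w, hw⟩ : R.V) = α w := hφα ⟨w, hw⟩
    rw [h3] at h2
    exact h2
  · intro h hh
    have h1 : e.β (φ.β ⟨h, hh⟩ : R.G) = g⁻¹ * e.β h * g := hg2 ⟨h, hh⟩
    have h2 := congrArg ι1.β h1
    rw [map_mul, map_mul, map_inv, hβ, hβ] at h2
    have h3 : (φ.β ⟨h, hh⟩ : R.G) = β h := hφβ ⟨h, hh⟩
    rw [h3] at h2
    exact h2

/-- Every representation `R` over every ring `K` (commutative or not) has an embedding `e` in a
representation `L` over `K` such that

* every isomorphism between finitely generated subrepresentations of `L` is induced by an element of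
  the group of `L`, and in particular `L` is homogeneous;
* every isomorphism between two arbitrary subrepresentations of `R` is induced by an element of the
  group of `L`;
* two elements of the module of `L` with the same annihilator in `K` are in the same orbit of the
  group of `L`, and two elements of the group of `L` with the same order are conjugate. -/
theorem result (K : Type u) [Ring K] (R : Rep K) :
    ∃ (L : Rep K) (e : R.Embedding L), L.InnerHomogeneous ∧ L.Homogeneous ∧ e.Inner ∧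
      (∀ v w : L.V, (∀ k : K, k • v = 0 ↔ k • w = 0) → ∃ g : L.G, L.act v g = w) ∧
      ∀ x y : L.G, orderOf x = orderOf y → IsConj x y := by
  choose nxt emb hgood using (step (K := K))
  let C : ℕ → Rep K := fun n => Nat.rec R (fun _ S => nxt S) n
  let e : ∀ n, (C n).Embedding (C (n + 1)) := fun n => emb (C n)
  have he : ∀ n, (e n).Good := fun n => hgood (C n)
  have hL : (lim C e).InnerHomogeneous := by
    apply inner_of_chain (lim C e) C e he (toLim C e) (toLim_α_succ C e) (toLim_β_succ C e)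
    · intro v
      obtain ⟨n, w, hw⟩ := rep_V C e v
      exact ⟨n, w, hw.symm⟩
    · intro g
      obtain ⟨n, w, hw⟩ := rep_G C e g
      exact ⟨n, w, hw.symm⟩
  exact ⟨lim C e, toLim C e 0, hL, homogeneous_of_inner hL,
    inner_of_good (e 0) (he 0) (toLim C e 1) (toLim C e 0) (toLim_α_succ C e 0)
      (toLim_β_succ C e 0), orbit_of_inner hL, conj_of_inner hL⟩

end Pool.Agent.Results.MP_f6eb76_al.InnerHomogeneous
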